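import Mathlib

set_option autoImplicit false
open Finset

namespace Pool.Agent.Results.MP_c8d2d2_an.CyclicOptimal

/-- Centres of the balls: `x_0 = 0`, `x_{k+1} = x_k + (ω_{i_k} + ω_{i_{k+1}})/(2n)`. -/
noncomputable def pos (n : ℕ) (ω : Fin 3 → ℝ) (s : ℕ → Fin 3) : ℕ → ℝ
  | 0 => 0
  | k + 1 => pos n ω s k + (ω (s k) + ω (s (k + 1))) / (2 * n)

/-- Periodic Green's function. -/
noncomputable def G (x y : ℝ) : ℝ := |x - y| ^ 2 / 2 - |x - y| / 2 + 1 / 12

/-- `(s 1, …, s (3n))` is an arrangement (each type exactly `n` times), with `s 0 = s (3n)`. -/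
def IsArrangement (n : ℕ) (s : ℕ → Fin 3) : Prop :=
  s 0 = s (3 * n) ∧ ∀ c : Fin 3, ((range (3 * n)).filter fun k => s (k + 1) = c).card = n

/-- The energy `U`; the index `k` of the sum stands for the ball `k+1`, `0 ≤ k < 3n`. -/
noncomputable def energy (n : ℕ) (ω : Fin 3 → ℝ) (f : Matrix (Fin 3) (Fin 3) ℝ)
    (s : ℕ → Fin 3) : ℝ :=
  1 / 2 * ∑ k ∈ range (3 * n), ∑ m ∈ range (3 * n),
    f (s (k + 1)) (s (m + 1)) * G (pos n ω s (k + 1)) (pos n ω s (m + 1))

/-- The cyclic arrangement `ABC⋯ABC`: `cyc 1 = 0` (A), `cyc 2 = 1` (B), `cyc 3 = 2` (C), … -/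
def cyc (k : ℕ) : Fin 3 := ⟨(k + 2) % 3, Nat.mod_lt _ (by norm_num)⟩

/-! ### summation identities -/

theorem abel (w x : ℕ → ℝ) (N : ℕ) :
    ∑ k ∈ range N, w k * x (k + 1) = (∑ j ∈ range N, w j) * x N -
      ∑ g ∈ range N, (x (g + 1) - x g) * ∑ j ∈ range g, w j := by
  induction N with
  | zero => simp
  | succ N ih =>
    rw [sum_range_succ, ih, sum_range_succ (fun j => w j), sum_range_succ (fun g => _ * _)]
    ring

theorem dist_sum (w x : ℕ → ℝ) (hx : Monotone x) (N : ℕ) :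
    ∑ k ∈ range N, ∑ m ∈ range N, w k * w m * |x (k + 1) - x (m + 1)| =
      2 * ∑ g ∈ range N, (x (g + 1) - x g) * (∑ j ∈ range g, w j) *
        (∑ j ∈ range N, w j - ∑ j ∈ range g, w j) := by
  induction N with
  | zero => simp
  | succ N ih =>
    have h1 : ∀ k ∈ range N, w k * w N * |x (k + 1) - x (N + 1)| =
        w N * (w k * x (N + 1)) - w N * (w k * x (k + 1)) := by
      intro k hk
      have : x (k + 1) ≤ x (N + 1) := hx (by have := mem_range.1 hk; omega)
      rw [abs_of_nonpos (by linarith)]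
      ring
    have h2 : ∀ k ∈ range N, w N * w k * |x (N + 1) - x (k + 1)| =
        w N * (w k * x (N + 1)) - w N * (w k * x (k + 1)) := by
      intro k hk
      have : x (k + 1) ≤ x (N + 1) := hx (by have := mem_range.1 hk; omega)
      rw [abs_of_nonneg (by linarith)]
      ring
    rw [sum_range_succ]
    simp_rw [sum_range_succ (fun m => _ * |_ - _|)]
    rw [sum_add_distrib, ih, sum_congr rfl h1, sum_congr rfl h2, sum_sub_distrib, ← mul_sum,
      ← mul_sum, ← sum_mul, abel w x N, sum_range_succ (fun g => _ * _ * _)]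
    have h3 : ∑ g ∈ range N, (x (g + 1) - x g) * (∑ j ∈ range g, w j) *
        (∑ j ∈ range (N + 1), w j - ∑ j ∈ range g, w j) =
        ∑ g ∈ range N, (x (g + 1) - x g) * (∑ j ∈ range g, w j) *
        (∑ j ∈ range N, w j - ∑ j ∈ range g, w j) +
        w N * ∑ g ∈ range N, (x (g + 1) - x g) * (∑ j ∈ range g, w j) := by
      rw [mul_sum, ← sum_add_distrib]
      refine sum_congr rfl fun g _ => ?_
      rw [sum_range_succ (fun j => w j) N]
      ring
    rw [h3, sum_range_succ (fun j => w j) N]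
    simp only [sub_self, abs_zero, mul_zero, add_zero]
    ring

theorem sq_sum (w y : ℕ → ℝ) (N : ℕ) :
    ∑ k ∈ range N, ∑ m ∈ range N, w k * w m * (y k - y m) ^ 2 =
      2 * (∑ k ∈ range N, w k) * (∑ k ∈ range N, w k * y k ^ 2) -
      2 * (∑ k ∈ range N, w k * y k) ^ 2 := by
  have h : ∀ k m : ℕ, w k * w m * (y k - y m) ^ 2 =
      (w k * y k ^ 2) * w m + w k * (w m * y m ^ 2) - 2 * ((w k * y k) * (w m * y m)) := by
    intro k m; ring
  simp_rw [h, sum_sub_distrib, sum_add_distrib, ← mul_sum, ← sum_mul]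
  ring

/-- energy of a rank-one charge distribution of total charge zero -/
theorem rank_one (w x : ℕ → ℝ) (hx : Monotone x) (N : ℕ)
    (hw : ∑ j ∈ range N, w j = 0) :
    ∑ k ∈ range N, ∑ m ∈ range N, w k * w m * G (x (k + 1)) (x (m + 1)) =
      ∑ g ∈ range N, (x (g + 1) - x g) * (∑ j ∈ range g, w j) ^ 2 -
      (∑ g ∈ range N, (x (g + 1) - x g) * ∑ j ∈ range g, w j) ^ 2 := by
  have h : ∀ k m : ℕ, w k * w m * G (x (k + 1)) (x (m + 1)) =
      1 / 2 * (w k * w m * (x (k + 1) - x (m + 1)) ^ 2) -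
      1 / 2 * (w k * w m * |x (k + 1) - x (m + 1)|) + 1 / 12 * (w k * w m) := by
    intro k m
    unfold G
    rw [sq_abs]
    ring
  have h2 : ∑ k ∈ range N, w k * ∑ m ∈ range N, w m = 0 := by
    simp_rw [hw, mul_zero, sum_const_zero]
  simp_rw [h, sum_add_distrib, sum_sub_distrib, ← mul_sum]
  rw [h2, dist_sum w x hx N, sq_sum w (fun k => x (k + 1)) N, abel w x N, hw]
  have h3 : ∑ g ∈ range N, (x (g + 1) - x g) * (∑ j ∈ range g, w j) *
        (0 - ∑ j ∈ range g, w j) = - ∑ g ∈ range N, (x (g + 1) - x g) * (∑ j ∈ range g, w j) ^ 2 := by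
    rw [← sum_neg_distrib]
    exact sum_congr rfl fun g _ => by ring
  rw [h3]
  ring

/-! ### the walk -/

/-- partial sums of charges -/
noncomputable def S (u : Fin 3 → ℝ) (s : ℕ → Fin 3) (g : ℕ) : ℝ := ∑ j ∈ range g, u (s (j + 1))

theorem S_zero (u : Fin 3 → ℝ) (s : ℕ → Fin 3) : S u s 0 = 0 := by simp [S]

theorem S_succ (u : Fin 3 → ℝ) (s : ℕ → Fin 3) (g : ℕ) :
    S u s (g + 1) = S u s g + u (s (g + 1)) := by
  unfold S
  rw [sum_range_succ]

/-- counts -/
def cnt (s : ℕ → Fin 3) (c : Fin 3) (g : ℕ) : ℤ := ∑ j ∈ range g, if s (j + 1) = c then 1 else 0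

theorem cnt_succ (s : ℕ → Fin 3) (c : Fin 3) (g : ℕ) :
    cnt s c (g + 1) = cnt s c g + if s (g + 1) = c then 1 else 0 := by
  unfold cnt
  rw [sum_range_succ]

theorem cnt_zero (s : ℕ → Fin 3) (c : Fin 3) : cnt s c 0 = 0 := by simp [cnt]

theorem cnt_full (n : ℕ) (s : ℕ → Fin 3) (hs : IsArrangement n s) (c : Fin 3) :
    cnt s c (3 * n) = n := by
  unfold cnt
  rw [sum_boole, hs.2 c]

theorem S_eq (u : Fin 3 → ℝ) (s : ℕ → Fin 3) (g : ℕ) :
    S u s g = ∑ c, u c * (cnt s c g : ℝ) := by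
  induction g with
  | zero => simp [S_zero, cnt_zero]
  | succ g ih =>
    rw [S_succ, ih]
    simp_rw [cnt_succ]
    push_cast
    simp_rw [mul_add, sum_add_distrib]
    congr 1
    simp

theorem exists_potential (g : ℤ → ℝ) : ∃ P : ℤ → ℝ, ∀ d, P (d + 1) - P d = g d := by
  refine ⟨fun d => if 0 ≤ d then ∑ e ∈ range d.toNat, g e
    else - ∑ e ∈ range (-d).toNat, g (-(e : ℤ) - 1), ?_⟩
  intro d
  beta_reduce
  rcases lt_trichotomy d (-1) with h | h | h
  · rw [if_neg (by omega), if_neg (by omega)]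
    obtain ⟨m, hm⟩ : ∃ m : ℕ, d = -(m : ℤ) - 1 := ⟨(-d - 1).toNat, by omega⟩
    have h1 : (-d).toNat = m + 1 := by omega
    have h2 : (-(d + 1)).toNat = m := by omega
    rw [h1, h2, sum_range_succ, hm]
    ring
  · subst h
    norm_num
  · rw [if_pos (by omega), if_pos (by omega)]
    have h1 : (d + 1).toNat = d.toNat + 1 := by omega
    rw [h1, sum_range_succ]
    have : ((d.toNat : ℕ) : ℤ) = d := by omega
    rw [this]
    ring

/-- midpoints of the steps -/
noncomputable def mid (u : Fin 3 → ℝ) (s : ℕ → Fin 3) (g : ℕ) : ℝ :=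
  S u s g + u (s (g + 1)) / 2

/-- average distance to `z` of the midpoints of the steps of type `c` -/
noncomputable def avg (n : ℕ) (u : Fin 3 → ℝ) (s : ℕ → Fin 3) (z : ℝ) (c : Fin 3) : ℝ :=
  (∑ g ∈ range (3 * n), if s (g + 1) = c then |mid u s g - z| else 0) / n

theorem univ_three : ∀ c d e : Fin 3, c ≠ d → c ≠ e → d ≠ e →
    (univ : Finset (Fin 3)) = {c, d, e} := by decide

/-- The key pairing inequality. -/
theorem pair_ineq (n : ℕ) (hn : 0 < n) (u : Fin 3 → ℝ) (hu : ∑ c, u c = 0) (s : ℕ → Fin 3)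
    (hs : IsArrangement n s) (z : ℝ) (c d e : Fin 3) (hcd : c ≠ d) (hce : c ≠ e) (hde : d ≠ e) :
    |u e| / 2 ≤ avg n u s z c + avg n u s z d := by
  have hn' : (0 : ℝ) < n := by exact_mod_cast hn
  -- the distance function to the lattice
  set q : ℤ → ℝ := fun D => ⨅ K : ℤ, |u c * (D + 1 / 2) - z - u e * K| with hq
  have hbdd : ∀ D : ℤ, BddBelow (Set.range fun K : ℤ => |u c * (D + 1 / 2) - z - u e * K|) :=
    fun D => ⟨0, by rintro _ ⟨K, rfl⟩; exact abs_nonneg _⟩
  have hq1 : ∀ (D K : ℤ), q D ≤ |u c * (D + 1 / 2) - z - u e * K| := fun D K =>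
    ciInf_le (hbdd D) K
  have hq2 : ∀ (D K : ℤ), |u e| / 2 - |u c * (D + 1 / 2) - z - u e * (K + 1 / 2)| ≤ q D := by
    intro D K
    refine le_ciInf fun K' => ?_
    have h1 : |u e| / 2 ≤ |u e * ((K' : ℝ) - K - 1 / 2)| := by
      rw [abs_mul]
      have h2 : (1 / 2 : ℝ) ≤ |(K' : ℝ) - K - 1 / 2| := by
        rcases le_or_gt K' K with h | h
        · have : (K' : ℝ) ≤ K := by exact_mod_cast h
          rw [abs_of_nonpos (by linarith)]
          linarith
        · have : (K : ℝ) + 1 ≤ K' := by exact_mod_cast h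
          rw [abs_of_nonneg (by linarith)]
          linarith
      nlinarith [abs_nonneg (u e)]
    have h3 : u e * ((K' : ℝ) - K - 1 / 2) =
        (u c * (D + 1 / 2) - z - u e * (K + 1 / 2)) - (u c * (D + 1 / 2) - z - u e * K') := by ring
    have h4 := abs_sub (u c * (D + 1 / 2) - z - u e * (K + 1 / 2))
      (u c * (D + 1 / 2) - z - u e * K')
    rw [← h3] at h4
    linarith
  obtain ⟨P, hP⟩ := exists_potential q
  -- level
  set L : ℕ → ℤ := fun g => cnt s c g - cnt s d g with hL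
  have hsum : ∑ g ∈ range (3 * n), (P (L (g + 1)) - P (L g)) = 0 := by
    rw [sum_range_sub (fun g => P (L g))]
    have h1 : L (3 * n) = 0 := by rw [hL]; simp only [cnt_full n s hs]; ring
    have h2 : L 0 = 0 := by rw [hL]; simp only [cnt_zero]; ring
    rw [h1, h2, sub_self]
  have huniv : ∀ F : Fin 3 → ℝ, ∑ x, F x = F c + F d + F e := by
    intro F
    rw [univ_three c d e hcd hce hde, sum_insert (by simp [hcd, hce]), sum_insert (by simp [hde]), sum_singleton]
    ring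
  have hu' : u c = - u d - u e := by
    have := hu
    rw [huniv] at this
    linarith
  have hS : ∀ g, S u s g = u c * (L g) - u e * (cnt s d g - cnt s e g : ℤ) := by
    intro g
    rw [S_eq, huniv, hL]
    push_cast
    rw [hu']
    ring
  -- termwise inequality
  have hterm : ∀ g ∈ range (3 * n),
      (if s (g + 1) = d then |u e| / 2 else 0) + (P (L (g + 1)) - P (L g)) ≤
      (if s (g + 1) = c then |mid u s g - z| else 0) +
      (if s (g + 1) = d then |mid u s g - z| else 0) := by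
    intro g _
    by_cases h1 : s (g + 1) = c
    · have h2 : s (g + 1) ≠ d := by rw [h1]; exact hcd
      rw [if_neg h2, if_pos h1, if_neg h2]
      have h3 : L (g + 1) = L g + 1 := by
        rw [hL]
        simp only [cnt_succ, if_pos h1, if_neg h2]
        ring
      rw [h3, hP]
      have h4 : mid u s g - z = u c * ((L g : ℝ) + 1 / 2) - z -
          u e * ((cnt s d g - cnt s e g : ℤ) : ℝ) := by
        unfold mid
        rw [hS, h1]
        ring
      rw [h4]
      have := hq1 (L g) (cnt s d g - cnt s e g)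
      linarith
    · by_cases h2 : s (g + 1) = d
      · rw [if_pos h2, if_neg h1, if_pos h2]
        have h3 : L (g + 1) = L g - 1 := by
          rw [hL]
          simp only [cnt_succ, if_pos h2, if_neg h1]
          ring
        have h5 := hP (L g - 1)
        rw [sub_add_cancel] at h5
        have h4 : mid u s g - z = u c * (((L g - 1 : ℤ) : ℝ) + 1 / 2) - z -
            u e * (((cnt s d g - cnt s e g : ℤ) : ℝ) + 1 / 2) := by
          unfold mid
          rw [hS, h2]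
          push_cast
          have : u d = - u c - u e := by linarith
          rw [this]
          ring
        have := hq2 (L g - 1) (cnt s d g - cnt s e g)
        rw [h3, h4]
        linarith
      · rw [if_neg h1, if_neg h2]
        have h3 : L (g + 1) = L g := by
          rw [hL]
          simp only [cnt_succ, if_neg h2, if_neg h1]
          ring
        rw [h3, if_neg h2]
        simp
  have h6 := sum_le_sum hterm
  rw [sum_add_distrib, sum_add_distrib, hsum, add_zero, ← sum_filter, sum_const, hs.2 d,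
    nsmul_eq_mul] at h6
  unfold avg
  rw [← add_div, le_div_iff₀ hn']
  linarith

/-- second moments of the midpoints of type `c` -/
noncomputable def mom (n : ℕ) (u : Fin 3 → ℝ) (s : ℕ → Fin 3) (z : ℝ) (c : Fin 3) : ℝ :=
  (∑ g ∈ range (3 * n), if s (g + 1) = c then (mid u s g - z) ^ 2 else 0) / n

theorem avg_nonneg (n : ℕ) (u : Fin 3 → ℝ) (s : ℕ → Fin 3) (z : ℝ) (c : Fin 3) :
    0 ≤ avg n u s z c := by
  unfold avg
  refine div_nonneg (sum_nonneg fun g _ => ?_) (Nat.cast_nonneg n)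
  split_ifs <;> simp

theorem avg_sq_le (n : ℕ) (hn : 0 < n) (u : Fin 3 → ℝ) (s : ℕ → Fin 3)
    (hs : IsArrangement n s) (z : ℝ) (c : Fin 3) : avg n u s z c ^ 2 ≤ mom n u s z c := by
  have hn' : (0 : ℝ) < n := by exact_mod_cast hn
  unfold avg mom
  rw [← sum_filter, ← sum_filter, div_pow, div_le_div_iff₀ (by positivity) hn']
  have h := sq_sum_le_card_mul_sum_sq (s := (range (3 * n)).filter fun k => s (k + 1) = c)
    (f := fun g => |mid u s g - z|)
  rw [hs.2 c] at h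
  simp_rw [sq_abs] at h
  nlinarith

theorem S_full (n : ℕ) (u : Fin 3 → ℝ) (hu : ∑ c, u c = 0) (s : ℕ → Fin 3)
    (hs : IsArrangement n s) : S u s (3 * n) = 0 := by
  rw [S_eq]
  simp_rw [cnt_full n s hs]
  rw [← sum_mul, hu, zero_mul]

theorem gap_form (n : ℕ) (hn : 0 < n) (ω u : Fin 3 → ℝ) (hu : ∑ c, u c = 0) (s : ℕ → Fin 3)
    (hs : IsArrangement n s) (z : ℝ) :
    ∑ g ∈ range (3 * n), (pos n ω s (g + 1) - pos n ω s g) * (S u s g - z) ^ 2 =
      ∑ c, ω c * mom n u s z c + ∑ c, ω c * u c ^ 2 / 4 := by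
  have hn' : (0 : ℝ) < n := by exact_mod_cast hn
  set h : ℕ → ℝ := fun g => ω (s g) / (2 * n) * (S u s g - z) ^ 2 with hh
  have h1 : ∑ g ∈ range (3 * n), (h (g + 1) - h g) = 0 := by
    rw [sum_range_sub, hh]
    simp only [S_full n u hu s hs, S_zero, hs.1, sub_self]
  rw [sum_sub_distrib] at h1
  have h2 : ∀ g ∈ range (3 * n), (pos n ω s (g + 1) - pos n ω s g) * (S u s g - z) ^ 2 =
      h g + ω (s (g + 1)) / (2 * n) * (S u s g - z) ^ 2 := by
    intro g _
    have : pos n ω s (g + 1) = pos n ω s g + (ω (s g) + ω (s (g + 1))) / (2 * n) := rfl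
    rw [this, hh]
    simp only
    field_simp
    ring
  rw [sum_congr rfl h2, sum_add_distrib]
  have h3 : ∑ g ∈ range (3 * n), h g = ∑ g ∈ range (3 * n), h (g + 1) := by linarith
  rw [h3, ← sum_add_distrib]
  have h4 : ∀ g ∈ range (3 * n), h (g + 1) + ω (s (g + 1)) / (2 * n) * (S u s g - z) ^ 2 =
      ∑ c, (ω c * ((if s (g + 1) = c then (mid u s g - z) ^ 2 else 0) / n) +
        ω c * u c ^ 2 / 4 * ((if s (g + 1) = c then 1 else 0) / n)) := by
    intro g _
    rw [sum_eq_single (s (g + 1))]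
    · rw [if_pos rfl, if_pos rfl, hh]
      simp only [S_succ]
      unfold mid
      field_simp
      ring
    · intro c _ hc
      rw [if_neg (Ne.symm hc), if_neg (Ne.symm hc)]
      ring
    · intro hc
      exact absurd (mem_univ _) hc
  rw [sum_congr rfl h4, sum_comm, ← sum_add_distrib]
  refine sum_congr rfl fun c _ => ?_
  rw [sum_add_distrib, ← mul_sum, ← mul_sum, ← sum_div, ← sum_div, sum_boole, hs.2 c]
  unfold mom
  rw [div_self hn'.ne', mul_one]

theorem mono_pos (n : ℕ) (ω : Fin 3 → ℝ) (hω : ∀ c, 0 < ω c) (s : ℕ → Fin 3) :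
    Monotone (pos n ω s) := by
  refine monotone_nat_of_le_succ fun k => ?_
  have : pos n ω s (k + 1) = pos n ω s k + (ω (s k) + ω (s (k + 1))) / (2 * n) := rfl
  rw [this]
  have := hω (s k)
  have := hω (s (k + 1))
  have : 0 ≤ (ω (s k) + ω (s (k + 1))) / (2 * (n : ℝ)) := by positivity
  linarith

theorem expand {ι : Type*} (A : Finset ι) (w a : ι → ℝ) (z : ℝ) :
    ∑ g ∈ A, w g * (a g - z) ^ 2 =
      ∑ g ∈ A, w g * a g ^ 2 - 2 * z * (∑ g ∈ A, w g * a g) + z ^ 2 * ∑ g ∈ A, w g := by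
  rw [mul_sum, mul_sum, ← sum_sub_distrib, ← sum_add_distrib]
  exact sum_congr rfl fun g _ => by ring

theorem gap_total (n : ℕ) (hn : 0 < n) (ω : Fin 3 → ℝ) (hω1 : ∑ c, ω c = 1) (s : ℕ → Fin 3)
    (hs : IsArrangement n s) :
    ∑ g ∈ range (3 * n), (pos n ω s (g + 1) - pos n ω s g) = 1 := by
  have hn' : (0 : ℝ) < n := by exact_mod_cast hn
  have h := gap_form n hn ω (fun _ => 0) (by simp) s hs 1
  have hS : ∀ g, S (fun _ => (0 : ℝ)) s g = 0 := fun g => by simp [S]
  have hm : ∀ c, mom n (fun _ => (0 : ℝ)) s 1 c = 1 := by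
    intro c
    unfold mom mid
    simp only [hS]
    rw [← sum_filter, sum_const, hs.2 c, nsmul_eq_mul]
    norm_num
    exact hn.ne'
  simp only [hS, hm] at h
  norm_num at h
  rw [hω1] at h
  simpa using h

/-- rank-one energy -/
noncomputable def en (n : ℕ) (ω u : Fin 3 → ℝ) (s : ℕ → Fin 3) : ℝ :=
  ∑ k ∈ range (3 * n), ∑ m ∈ range (3 * n),
    u (s (k + 1)) * u (s (m + 1)) * G (pos n ω s (k + 1)) (pos n ω s (m + 1))

theorem en_le (n : ℕ) (hn : 0 < n) (ω : Fin 3 → ℝ) (hω : ∀ c, 0 < ω c) (hω1 : ∑ c, ω c = 1)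
    (u : Fin 3 → ℝ) (hu : ∑ c, u c = 0) (s : ℕ → Fin 3)
    (hs : IsArrangement n s) (z : ℝ) :
    en n ω u s ≤ ∑ c, ω c * mom n u s z c + ∑ c, ω c * u c ^ 2 / 4 := by
  rw [← gap_form n hn ω u hu s hs z]
  unfold en
  rw [rank_one (fun k => u (s (k + 1))) (pos n ω s) (mono_pos n ω hω s) (3 * n)
    (S_full n u hu s hs)]
  have h1 := expand (range (3 * n)) (fun g => pos n ω s (g + 1) - pos n ω s g)
    (fun g => S u s g) z
  rw [h1, gap_total n hn ω hω1 s hs]
  have := sq_nonneg (z - ∑ g ∈ range (3 * n), (pos n ω s (g + 1) - pos n ω s g) * S u s g)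
  unfold S at *
  nlinarith

theorem en_eq (n : ℕ) (hn : 0 < n) (ω : Fin 3 → ℝ) (hω : ∀ c, 0 < ω c) (hω1 : ∑ c, ω c = 1)
    (u : Fin 3 → ℝ) (hu : ∑ c, u c = 0) (s : ℕ → Fin 3)
    (hs : IsArrangement n s) :
    ∃ z, en n ω u s = ∑ c, ω c * mom n u s z c + ∑ c, ω c * u c ^ 2 / 4 := by
  refine ⟨∑ g ∈ range (3 * n), (pos n ω s (g + 1) - pos n ω s g) * S u s g, ?_⟩
  rw [← gap_form n hn ω u hu s hs]
  unfold en
  rw [rank_one (fun k => u (s (k + 1))) (pos n ω s) (mono_pos n ω hω s) (3 * n)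
    (S_full n u hu s hs)]
  set z := ∑ g ∈ range (3 * n), (pos n ω s (g + 1) - pos n ω s g) * S u s g with hz
  have h1 := expand (range (3 * n)) (fun g => pos n ω s (g + 1) - pos n ω s g)
    (fun g => S u s g) z
  rw [h1, gap_total n hn ω hω1 s hs, ← hz]
  unfold S at *
  rw [← hz]
  ring

/-- the three midpoints of the cyclic arrangement -/
noncomputable def pt (u : Fin 3 → ℝ) : Fin 3 → ℝ := ![u 0 / 2, u 0 + u 1 / 2, -u 2 / 2]

theorem helly (ω : Fin 3 → ℝ) (hω : ∀ c, 0 < ω c) (hω1 : ∑ c, ω c = 1)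
    (u : Fin 3 → ℝ) (hu : ∑ c, u c = 0) (r T : Fin 3 → ℝ) (hr : ∀ c, 0 ≤ r c)
    (hT : ∀ c, r c ^ 2 ≤ T c) (h2 : |u 2| / 2 ≤ r 0 + r 1) (h0 : |u 0| / 2 ≤ r 1 + r 2)
    (h1 : |u 1| / 2 ≤ r 0 + r 2) :
    ∑ c, ω c * pt u c ^ 2 - (∑ c, ω c * pt u c) ^ 2 ≤ ∑ c, ω c * T c := by
  rw [Fin.sum_univ_three] at hu
  set z := max (pt u 0 - r 0) (max (pt u 1 - r 1) (pt u 2 - r 2)) with hz
  have p0 : pt u 0 = u 0 / 2 := rfl
  have p1 : pt u 1 = u 0 + u 1 / 2 := rfl
  have p2 : pt u 2 = -u 2 / 2 := rfl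
  have a0 := abs_le.1 (le_refl |u 0|)
  have a1 := abs_le.1 (le_refl |u 1|)
  have a2 := abs_le.1 (le_refl |u 2|)
  have l0 : pt u 0 - r 0 ≤ z := le_max_left _ _
  have l1 : pt u 1 - r 1 ≤ z := (le_max_left _ _).trans (le_max_right _ _)
  have l2 : pt u 2 - r 2 ≤ z := (le_max_right _ _).trans (le_max_right _ _)
  have e0 : z ≤ pt u 0 + r 0 := by
    refine max_le (by linarith [hr 0]) (max_le ?_ ?_) <;> rw [p0] <;> [rw [p1]; rw [p2]] <;>
      linarith [a0.1, a0.2, a1.1, a1.2, a2.1, a2.2]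
  have e1 : z ≤ pt u 1 + r 1 := by
    refine max_le ?_ (max_le (by linarith [hr 1]) ?_) <;> rw [p1] <;> [rw [p0]; rw [p2]] <;>
      linarith [a0.1, a0.2, a1.1, a1.2, a2.1, a2.2]
  have e2 : z ≤ pt u 2 + r 2 := by
    refine max_le ?_ (max_le ?_ (by linarith [hr 2])) <;> rw [p2] <;> [rw [p0]; rw [p1]] <;>
      linarith [a0.1, a0.2, a1.1, a1.2, a2.1, a2.2]
  have q : ∀ c, (pt u c - z) ^ 2 ≤ T c := by
    intro c
    refine le_trans ?_ (hT c)
    apply sq_le_sq'
    · fin_cases c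
      · show - r 0 ≤ pt u 0 - z; linarith
      · show - r 1 ≤ pt u 1 - z; linarith
      · show - r 2 ≤ pt u 2 - z; linarith
    · fin_cases c
      · show pt u 0 - z ≤ r 0; linarith
      · show pt u 1 - z ≤ r 1; linarith
      · show pt u 2 - z ≤ r 2; linarith
  have h3 : ∑ c, ω c * (pt u c - z) ^ 2 ≤ ∑ c, ω c * T c :=
    sum_le_sum fun c _ => mul_le_mul_of_nonneg_left (q c) (hω c).le
  have h4 := expand univ ω (pt u) z
  rw [h4, hω1] at h3
  nlinarith [sq_nonneg (z - ∑ c, ω c * pt u c)]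

theorem lower (n : ℕ) (hn : 0 < n) (ω : Fin 3 → ℝ) (hω : ∀ c, 0 < ω c) (hω1 : ∑ c, ω c = 1)
    (u : Fin 3 → ℝ) (hu : ∑ c, u c = 0) (s : ℕ → Fin 3)
    (hs : IsArrangement n s) :
    ∑ c, ω c * pt u c ^ 2 - (∑ c, ω c * pt u c) ^ 2 + ∑ c, ω c * u c ^ 2 / 4 ≤ en n ω u s := by
  obtain ⟨z, hz⟩ := en_eq n hn ω hω hω1 u hu s hs
  rw [hz]
  have := helly ω hω hω1 u hu (avg n u s z) (mom n u s z) (avg_nonneg n u s z)
    (avg_sq_le n hn u s hs z)
    (pair_ineq n hn u hu s hs z 0 1 2 (by decide) (by decide) (by decide))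
    (pair_ineq n hn u hu s hs z 1 2 0 (by decide) (by decide) (by decide))
    (pair_ineq n hn u hu s hs z 0 2 1 (by decide) (by decide) (by decide))
  linarith

/-! ### the cyclic arrangement -/

theorem cyc_one (q : ℕ) : cyc (3 * q + 1) = 0 := by
  unfold cyc; ext; simp; omega
theorem cyc_two (q : ℕ) : cyc (3 * q + 2) = 1 := by
  unfold cyc; ext; simp; omega
theorem cyc_three (q : ℕ) : cyc (3 * q + 3) = 2 := by
  unfold cyc; ext; simp; omega

theorem cyc_arr (n : ℕ) : IsArrangement n cyc := by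
  constructor
  · unfold cyc; ext; simp
  · intro c
    induction n with
    | zero => simp
    | succ n ih =>
      rw [card_filter] at ih ⊢
      rw [show 3 * (n + 1) = 3 * n + 1 + 1 + 1 by ring, sum_range_succ, sum_range_succ,
        sum_range_succ, ih, cyc_one, show 3 * n + 1 + 1 = 3 * n + 2 by ring, cyc_two,
        show 3 * n + 2 + 1 = 3 * n + 3 by ring, cyc_three]
      fin_cases c <;> simp

theorem S_cyc (u : Fin 3 → ℝ) (hu : ∑ c, u c = 0) (q : ℕ) : S u cyc (3 * q) = 0 := by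
  rw [Fin.sum_univ_three] at hu
  induction q with
  | zero => simp [S]
  | succ q ih =>
    rw [show 3 * (q + 1) = 3 * q + 1 + 1 + 1 by ring, S_succ, S_succ, S_succ, ih, cyc_one,
      show 3 * q + 1 + 1 = 3 * q + 2 by ring, cyc_two,
      show 3 * q + 2 + 1 = 3 * q + 3 by ring, cyc_three]
    linarith

theorem mid_cyc (u : Fin 3 → ℝ) (hu : ∑ c, u c = 0) (g : ℕ) :
    mid u cyc g = pt u (cyc (g + 1)) := by
  obtain ⟨q, r, hr, rfl⟩ : ∃ q r, r < 3 ∧ g = 3 * q + r := ⟨g / 3, g % 3, Nat.mod_lt _ (by norm_num),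
    (Nat.div_add_mod g 3).symm⟩
  have h0 := S_cyc u hu q
  rw [Fin.sum_univ_three] at hu
  unfold mid
  interval_cases r
  · rw [add_zero, h0, cyc_one]
    show 0 + u 0 / 2 = u 0 / 2
    ring
  · rw [S_succ, h0, show 3 * q + 1 + 1 = 3 * q + 2 by ring, cyc_two, cyc_one]
    show 0 + u 0 + u 1 / 2 = u 0 + u 1 / 2
    ring
  · rw [show 3 * q + 2 = 3 * q + 1 + 1 by ring, S_succ, S_succ, h0, cyc_one,
      show 3 * q + 1 + 1 = 3 * q + 2 by ring, cyc_two,
      show 3 * q + 2 + 1 = 3 * q + 3 by ring, cyc_three]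
    show 0 + u 0 + u 1 + u 2 / 2 = -u 2 / 2
    linarith

theorem upper (n : ℕ) (hn : 0 < n) (ω : Fin 3 → ℝ) (hω : ∀ c, 0 < ω c) (hω1 : ∑ c, ω c = 1)
    (u : Fin 3 → ℝ) (hu : ∑ c, u c = 0) :
    en n ω u cyc ≤
      ∑ c, ω c * pt u c ^ 2 - (∑ c, ω c * pt u c) ^ 2 + ∑ c, ω c * u c ^ 2 / 4 := by
  have hn' : (0 : ℝ) < n := by exact_mod_cast hn
  have h := en_le n hn ω hω hω1 u hu cyc (cyc_arr n) (∑ c, ω c * pt u c)
  set z := ∑ c, ω c * pt u c with hz
  have hm : ∀ c, mom n u cyc z c = (pt u c - z) ^ 2 := by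
    intro c
    unfold mom
    have : ∀ g ∈ range (3 * n), (if cyc (g + 1) = c then (mid u cyc g - z) ^ 2 else 0) =
        if cyc (g + 1) = c then (pt u c - z) ^ 2 else 0 := by
      intro g _
      split_ifs with h1
      · rw [mid_cyc u hu, h1]
      · rfl
    rw [sum_congr rfl this, ← sum_filter, sum_const, (cyc_arr n).2 c, nsmul_eq_mul,
      mul_div_assoc, mul_comm, div_mul_cancel₀ _ hn'.ne']
  simp_rw [hm] at h
  have h4 := expand univ ω (pt u) z
  rw [h4, hω1, ← hz] at h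
  linarith

open scoped MatrixOrder in
/-- **Optimality of the cyclic arrangement.** For every `n ≥ 1`, all weights and every admissible
matrix `f` (symmetric, positive semidefinite, annihilating `(1,1,1)`), the cyclic arrangement
minimizes the energy among all arrangements. -/
theorem result (n : ℕ) (hn : 0 < n) (ω : Fin 3 → ℝ) (hω : ∀ c, 0 < ω c) (hω1 : ∑ c, ω c = 1)
    (f : Matrix (Fin 3) (Fin 3) ℝ) (hf : f.PosSemidef) (hf1 : ∀ i, ∑ j, f i j = 0) :
    IsArrangement n cyc ∧ ∀ s : ℕ → Fin 3, IsArrangement n s →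
      energy n ω f cyc ≤ energy n ω f s := by
  refine ⟨cyc_arr n, fun s hs => ?_⟩
  obtain ⟨B, hB⟩ : ∃ B : Matrix (Fin 3) (Fin 3) ℝ, f = star B * B :=
    CStarAlgebra.nonneg_iff_eq_star_mul_self.mp hf.nonneg
  have hfB : ∀ i j, f i j = ∑ t, B t i * B t j := by
    intro i j
    rw [hB, Matrix.mul_apply]
    simp
  have hB1 : ∀ t, ∑ i, B t i = 0 := by
    have h1 : ∑ t, (∑ i, B t i) ^ 2 = 0 := by
      have h2 : ∑ t, (∑ i, B t i) ^ 2 = ∑ i, ∑ j, f i j := by
        simp_rw [hfB, sq, sum_mul_sum]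
        rw [sum_comm]
        refine sum_congr rfl fun i _ => ?_
        rw [sum_comm]
      rw [h2]
      simp [hf1]
    intro t
    have := (sum_eq_zero_iff_of_nonneg (fun t _ => sq_nonneg (∑ i, B t i))).1 h1 t (mem_univ t)
    exact pow_eq_zero_iff (two_ne_zero) |>.1 this
  have hen : ∀ s, energy n ω f s = 1 / 2 * ∑ t, en n ω (B t) s := by
    intro s
    unfold energy en
    congr 1
    symm
    rw [sum_comm]
    refine sum_congr rfl fun k _ => ?_
    rw [sum_comm]
    refine sum_congr rfl fun m _ => ?_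
    rw [hfB, sum_mul]
  rw [hen, hen]
  refine mul_le_mul_of_nonneg_left (sum_le_sum fun t _ => ?_) (by norm_num)
  exact (upper n hn ω hω hω1 (B t) (hB1 t)).trans (lower n hn ω hω hω1 (B t) (hB1 t) s hs)

end Pool.Agent.Results.MP_c8d2d2_an.CyclicOptimal
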